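import Pool.Agent.Lib.MP_696deb_nt.Y3.Top

set_option autoImplicit false
open Classical

namespace Pool.Agent.Results.MP_696deb_nt.CubicTwists

/-- Every family of cubic twists `y ^ 2 = x ^ 3 + k n ^ 2` over the rationals. For `r = 0` and for
`r = 1`, half of the curves have root number `(-1) ^ r`, `3^∞`-Selmer corank exactly `r`, and
satisfy `ord = rank = r`, where `ord` is the order of vanishing of the L-function at the point
one. -/
theorem result (k : ℤ) (hk : k ≠ 0) (r : ℕ) (hr : r ≤ 1) :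
    Filter.Tendsto (fun X : ℕ =>
      (Set.ncard {n : ℕ | 1 ≤ n ∧ n ≤ X ∧
        ∀ a b : ℤ, a = 0 → b = k * (n : ℤ) ^ 2 →
          (r = 0 ↔ Pool.Agent.Lib.MP_696deb_nt.CQ.rootNumber b = 1) ∧ ∀ W : WeierstrassCurve ℚ,
          W = { a₁ := 0, a₂ := 0, a₃ := 0, a₄ := (a : ℚ), a₆ := (b : ℚ) } →
          ∃ F : ℂ → ℂ, Differentiable ℂ F ∧
            (∀ s : ℂ, (3 : ℝ) / 2 < s.re →
              HasProd
                (fun p : ℕ =>
                  if p.Prime ∧ ¬ ((p : ℤ) ∣ 2 * (-4 * a ^ 3 - 27 * b ^ 2)) then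
                    (1 - ((p : ℂ) - (Nat.card {q : ZMod p × ZMod p //
                        q.2 ^ 2 = q.1 ^ 3 + (a : ZMod p) * q.1 + (b : ZMod p)} : ℂ))
                        * (p : ℂ) ^ (-s) + (p : ℂ) ^ (1 - 2 * s))⁻¹
                  else 1)
                (F s)) ∧
            IsLeast {j : ℕ | Pool.Agent.Lib.MP_696deb_nt.CK.CorankLE3 W j} r ∧
            Module.Finite ℤ W.toAffine.Point ∧ Module.finrank ℤ W.toAffine.Point = r ∧
            analyticOrderAt F 1 = (Module.finrank ℤ W.toAffine.Point : ℕ∞)} : ℝ) / X)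
      Filter.atTop (nhds (1 / 2)) :=
  Pool.Agent.Lib.MP_696deb_nt.Y3.tend hk hr

end Pool.Agent.Results.MP_696deb_nt.CubicTwists
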