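import Pool.Agent.Lib.MP_696deb_nt.SPN.FZ

set_option autoImplicit false
open Classical

namespace Pool.Agent.Results.MP_696deb_nt.PrimeTwists

/-- Let `E` be one of the curves 11a1, 19a1, of conductor `N`, with invariants `c₄` and `c₆`. Fix
two signs `s₁` and `s₃`, and twist `E` by `d = s₁ l` for primes `l` that are one modulo four and by
`d = s₃ l` for the other primes `l`. For a set of primes `l` of lower natural density at least
eleven twelfths, the twist satisfies the rank part of the Birch and Swinnerton-Dyer conjecture,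
and both ranks are zero or one according to the root number. -/
theorem result (N : ℕ) (c₄ c₆ : ℤ)
    (hE : (N, c₄, c₆) ∈ ({(11, 496, 20008), (19, 448, 10088)} : Set (ℕ × ℤ × ℤ)))
    (s₁ s₃ : ℤ) (h₁ : s₁ = 1 ∨ s₁ = -1) (h₃ : s₃ = 1 ∨ s₃ = -1) (ε : ℝ) (hε : 0 < ε) :
    ∀ᶠ X : ℕ in Filter.atTop,
      (11 / 12 - ε) * (Set.ncard {l : ℕ | l ≤ X ∧ l.Prime} : ℝ) ≤
      (Set.ncard {l : ℕ | l ≤ X ∧ l.Prime ∧
        ∀ d a b : ℤ, d = (if l % 4 = 1 then s₁ else s₃) * l →
          a = -27 * c₄ * d ^ 2 → b = -54 * c₆ * d ^ 3 →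
          ∃ F : ℂ → ℂ, Differentiable ℂ F ∧
            (∀ s : ℂ, (3 : ℝ) / 2 < s.re →
              HasProd
                (fun p : ℕ =>
                  if p.Prime ∧ ¬ ((p : ℤ) ∣ 2 * (-4 * a ^ 3 - 27 * b ^ 2)) then
                    (1 - ((p : ℂ) - (Nat.card {q : ZMod p × ZMod p //
                        q.2 ^ 2 = q.1 ^ 3 + (a : ZMod p) * q.1 + (b : ZMod p)} : ℂ))
                        * (p : ℂ) ^ (-s) + (p : ℂ) ^ (1 - 2 * s))⁻¹
                  else 1)
                (F s)) ∧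
            analyticOrderAt F 1 =
              ((Module.finrank ℤ
                (WeierstrassCurve.Affine.Point
                  (WeierstrassCurve.toAffine
                    ({ a₁ := 0, a₂ := 0, a₃ := 0, a₄ := (a : ℚ), a₆ := (b : ℚ) } :
                      WeierstrassCurve ℚ))) : ℕ) : ℕ∞) ∧
            Module.Finite ℤ (WeierstrassCurve.Affine.Point
              (WeierstrassCurve.toAffine
                ({ a₁ := 0, a₂ := 0, a₃ := 0, a₄ := (a : ℚ), a₆ := (b : ℚ) } : WeierstrassCurve ℚ))) ∧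
            analyticOrderAt F 1 = if d.sign * jacobiSym d N = 1 then 0 else 1} : ℝ) := by
  have key : ∀ (P : ℕ → Prop) [DecidablePred P] (X : ℕ), (Set.ncard {l : ℕ | l ≤ X ∧ P l} : ℝ) =
      (((Finset.range (X + 1)).filter P).card : ℝ) := fun P _ X => by
    rw [← Set.ncard_coe_finset]
    congr 2
    ext l
    simp only [Set.mem_ofPred_eq, Finset.coe_filter, Finset.mem_range, Nat.lt_succ_iff]
  have g1 : ∀ n : ℕ, (if n % 4 = 1 then s₁ else s₃) = 1 ∨ (if n % 4 = 1 then s₁ else s₃) = -1 :=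
    fun n => by split_ifs <;> assumption
  have g4 : ∀ m n : ℕ, m % 4 = n % 4 →
      (if m % 4 = 1 then s₁ else s₃) = (if n % 4 = 1 then s₁ else s₃) := fun m n h => by rw [h]
  have hf : ∀ᶠ X : ℕ in Filter.atTop, (11 / 12 - ε) * Nat.primeCounting X ≤
      (((Finset.range (X + 1)).filter fun l : ℕ => l.Prime ∧
        Pool.Agent.B6.S.SPN.Fine N c₄ c₆ ((if l % 4 = 1 then s₁ else s₃) * l)).card : ℝ) := by
    rcases hE with h | h <;> obtain ⟨rfl, rfl, rfl⟩ := h
    · exact Pool.Agent.B6.S.SPN.dens11 _ g1 g4 hε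
    · exact Pool.Agent.B6.S.SPN.dens19 _ g1 g4 hε
  filter_upwards [hf] with X hX
  rw [key, key]
  rw [Nat.primeCounting, Nat.primeCounting', Nat.count_eq_card_filter_range] at hX
  refine hX.trans (Nat.cast_le.2 (Finset.card_le_card fun l hl => ?_))
  obtain ⟨h1, h2, h3⟩ := Finset.mem_filter.1 hl
  refine Finset.mem_filter.2 ⟨h1, h2, fun d a b hd ha hb => ?_⟩
  subst hd
  exact h3 a b ha hb

end Pool.Agent.Results.MP_696deb_nt.PrimeTwists
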