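import Pool.Agent.Lib.MP_696deb_nt.Y2.Top

set_option autoImplicit false
open Classical

namespace Pool.Agent.Results.MP_696deb_nt.QuarticTwists

/-- All elliptic curves over the rationals with `j = 1728`, that is, the curves
`y ^ 2 = x ^ 3 - D x` with `D` free of fourth powers. For `r = 0` and for `r = 1`,
half of the curves have root number `(-1) ^ r`, `2^∞`-Selmer corank exactly `r`, rank `r`, and
`ord = rank`, where `ord` is the order of vanishing of the L-function at the point one. So the rank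
form of the Birch and Swinnerton-Dyer conjecture holds for a proportion tending to one of all these
curves. -/
theorem result (r : ℕ) (hr : r ≤ 1) :
    Filter.Tendsto (fun X : ℕ =>
      (Set.ncard {D : ℤ | |D| ≤ X ∧ (∀ p : ℕ, p.Prime → ¬ (p : ℤ) ^ 4 ∣ D) ∧
        (r = 0 ↔ (0 < D ↔
          ((D % 16 = 1 ∨ D % 16 = 3 ∨ D % 16 = 8 ∨ D % 16 = 11 ∨ D % 16 = 13 ∨
              D % 64 = 4 ∨ D % 64 = 28 ∨ D % 64 = 36 ∨ D % 64 = 44) ↔
            Even (Set.ncard {p : ℕ | p.Prime ∧ p % 4 = 3 ∧ (p : ℤ) ^ 2 ∣ D ∧ ¬ (p : ℤ) ^ 3 ∣ D})))) ∧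
        ∀ a b : ℤ, a = -D → b = 0 → ∀ W : WeierstrassCurve ℚ,
          W = { a₁ := 0, a₂ := 0, a₃ := 0, a₄ := (a : ℚ), a₆ := (b : ℚ) } →
          ∃ F : ℂ → ℂ, Differentiable ℂ F ∧
            (∀ s : ℂ, (3 : ℝ) / 2 < s.re →
              HasProd
                (fun p : ℕ =>
                  if p.Prime ∧ ¬ ((p : ℤ) ∣ 2 * (-4 * a ^ 3 - 27 * b ^ 2)) then
                    (1 - ((p : ℂ) - (Nat.card {q : ZMod p × ZMod p //
                        q.2 ^ 2 = q.1 ^ 3 + (a : ZMod p) * q.1 + (b : ZMod p)} : ℂ))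
                        * (p : ℂ) ^ (-s) + (p : ℂ) ^ (1 - 2 * s))⁻¹
                  else 1)
                (F s)) ∧
            IsLeast {n : ℕ | Pool.Agent.Lib.MP_696deb_nt.B2.Stmt.CorankLE W n} r ∧
            Module.Finite ℤ W.toAffine.Point ∧ Module.finrank ℤ W.toAffine.Point = r ∧
            analyticOrderAt F 1 = (Module.finrank ℤ W.toAffine.Point : ℕ∞)} : ℝ) /
        (Set.ncard {D : ℤ | |D| ≤ X ∧ ∀ p : ℕ, p.Prime → ¬ (p : ℤ) ^ 4 ∣ D} : ℝ))
      Filter.atTop (nhds (1 / 2)) :=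
  Pool.Agent.Lib.MP_696deb_nt.QK.tendF Pool.Agent.Lib.MP_696deb_nt.EU.conv
    Pool.Agent.Lib.MP_696deb_nt.Y2.one hr

end Pool.Agent.Results.MP_696deb_nt.QuarticTwists
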