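import Pool.Agent.Lib.MP_696deb_nt.SP.ZA

set_option autoImplicit false
open Classical

namespace Pool.Agent.Results.MP_696deb_nt.Silverman

/-- Let `y ^ 2 = x ^ 3 + a x + b` be any elliptic curve over the rational numbers and let `r` be
zero or one. There is a sign `ε` such that, for a set of primes `p` of positive lower Dirichlet
density, the quadratic twist `y ^ 2 = x ^ 3 + a (ε p) ^ 2 x + b (ε p) ^ 3` has `2^∞`-Selmer group
of corank exactly `r` and a finitely generated group of rational points of rank at most `r`. -/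
theorem result (a b : ℤ) (hΔ : 4 * a ^ 3 + 27 * b ^ 2 ≠ 0) (r : ℕ) (hr : r ≤ 1) :
    ∃ ε : ℤ, (ε = 1 ∨ ε = -1) ∧ ∃ δ : ℝ, 0 < δ ∧ ∀ᶠ s : ℝ in nhdsWithin 1 (Set.Ioi 1),
      δ * Real.log (1 / (s - 1)) ≤ ∑' p : ℕ,
        if p.Prime ∧ ∀ W : WeierstrassCurve ℚ,
          W = { a₁ := 0, a₂ := 0, a₃ := 0, a₄ := a * (ε * p) ^ 2, a₆ := b * (ε * p) ^ 3 } →
          IsLeast {n : ℕ | Pool.Agent.Lib.MP_696deb_nt.B2.Stmt.CorankLE W n} r ∧
            Module.Finite ℤ W.toAffine.Point ∧ Module.finrank ℤ W.toAffine.Point ≤ r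
        then (p : ℝ) ^ (-s) else 0 := by
  obtain ⟨ε, h1, δ, h2, h3⟩ := Pool.Agent.SP.prime_twists1 hΔ hr
  exact ⟨ε, h1, δ, h2, h3.mono fun s h => h.trans_eq (tsum_congr fun p => if_congr Iff.rfl rfl rfl)⟩

end Pool.Agent.Results.MP_696deb_nt.Silverman
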